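import Mathlib

/-!
# Typical ranks of looped cycles

No integer `r ≥ 5` is a typical rank of a looped cycle. In particular the maximum typical rank of
a looped cycle is never `5`.
-/

open Finset

namespace Pool.Agent.Results.MP_541c26_co.NeverFive

/-- A semisimple graph on the vertex set `{0, ..., n-1}`, given by its set of edges; an edge
`s(i, i)` is a loop. -/
abbrev Graph (n : ℕ) : Type := Set (Sym2 (Fin n))

/-- A `G`-partial matrix: a real number for every edge of `G`. -/
abbrev PartialMatrix {n : ℕ} (G : Graph n) : Type := G → ℝ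

/-- `A` is a completion of `M`: a real symmetric matrix that agrees with `M` on the specified
entries. -/
def IsCompletion {n : ℕ} {G : Graph n} (M : PartialMatrix G) (A : Matrix (Fin n) (Fin n) ℝ) :
    Prop :=
  A.transpose = A ∧ ∀ (i j : Fin n) (h : s(i, j) ∈ G), A i j = M ⟨s(i, j), h⟩

/-- The minimum completion rank. -/
noncomputable def minCompletionRank {n : ℕ} {G : Graph n} (M : PartialMatrix G) : ℕ :=
  sInf {r | ∃ A, IsCompletion M A ∧ A.rank = r}

/-- `r` is a typical rank of `G`: the set of `G`-partial matrices with minimum completion rank `r`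
has nonempty interior. -/
def IsTypicalRank {n : ℕ} (G : Graph n) (r : ℕ) : Prop :=
  (interior {M : PartialMatrix G | minCompletionRank M = r}).Nonempty

/-- The looped cycle: the loops `s(i, i)` and the edges `s(i, i + 1 mod n)`. -/
def loopedCycle (n : ℕ) : Graph n :=
  {x | (∃ i : Fin n, x = s(i, i)) ∨ ∃ i j : Fin n, (j : ℕ) = ((i : ℕ) + 1) % n ∧ x = s(i, j)}

/-! ### A sum of two hyperbolas -/

lemma exists_root (d g y : ℝ) (hd : d ≠ 0) (hy : y ≠ 0) (h : 2 * d * g ≤ y ^ 2) :
    ∃ a : ℝ, a ≠ 0 ∧ g / a + d / 2 * a = y := by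
  have hs := Real.sq_sqrt (sub_nonneg.2 h)
  set q := Real.sqrt (y ^ 2 - 2 * d * g) with hq
  have hq0 : 0 ≤ q := Real.sqrt_nonneg _
  rcases lt_or_gt_of_ne hy with hneg | hpos
  · have hne : y - q ≠ 0 := by linarith
    refine ⟨(y - q) / d, div_ne_zero hne hd, ?_⟩
    field_simp
    nlinarith
  · have hne : y + q ≠ 0 := by linarith
    refine ⟨(y + q) / d, div_ne_zero hne hd, ?_⟩
    field_simp
    nlinarith

lemma exists_two (d g g' T : ℝ) (hd : d ≠ 0) :
    ∃ a a' : ℝ, a ≠ 0 ∧ a' ≠ 0 ∧ g / a + d / 2 * a + (g' / a' + d / 2 * a') = T := by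
  obtain ⟨s, hs⟩ : ∃ s : ℝ, s = |T| + 1 + |2 * d * g| + |2 * d * g'| := ⟨_, rfl⟩
  have h1 : 1 ≤ s := by
    rw [hs]
    have := abs_nonneg T
    have := abs_nonneg (2 * d * g)
    have := abs_nonneg (2 * d * g')
    linarith
  have h2 : 1 + |2 * d * g| ≤ T + s := by
    rw [hs]
    have := neg_abs_le T
    have := abs_nonneg (2 * d * g')
    linarith
  have h3 : |2 * d * g'| ≤ s := by
    rw [hs]
    have := abs_nonneg T
    have := abs_nonneg (2 * d * g)
    linarith
  have h4 := abs_nonneg (2 * d * g)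
  obtain ⟨a, ha, ha'⟩ := exists_root d g (T + s) hd (by linarith)
    (by have := le_abs_self (2 * d * g); nlinarith)
  obtain ⟨b, hb, hb'⟩ := exists_root d g' (-s) hd (by linarith)
    (by have := le_abs_self (2 * d * g'); nlinarith)
  exact ⟨a, b, ha, hb, by rw [ha', hb']; ring⟩

/-- steps whose heights add up to a given number -/
lemma exists_steps (n : ℕ) (hn : 4 ≤ n) (d T : ℝ) (g : ℕ → ℝ) (hd : d ≠ 0) :
    ∃ α : ℕ → ℝ, (∀ j, α j ≠ 0) ∧ ∑ j ∈ Ico 1 (n - 1), (g j / α j + d / 2 * α j) = T := by
  obtain ⟨a, a', ha, ha', h⟩ := exists_two d (g 1) (g 2)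
    (T - ∑ j ∈ Ico 3 (n - 1), (g j / 1 + d / 2 * 1)) hd
  refine ⟨fun j => if j = 1 then a else if j = 2 then a' else 1, ?_, ?_⟩
  · intro j
    simp only
    split_ifs
    · exact ha
    · exact ha'
    · exact one_ne_zero
  · rw [sum_eq_sum_Ico_succ_bot (by omega), sum_eq_sum_Ico_succ_bot (by omega)]
    have h1 : ∑ j ∈ Ico (1 + 1 + 1) (n - 1), (g j / (if j = 1 then a else if j = 2 then a' else 1)
        + d / 2 * (if j = 1 then a else if j = 2 then a' else 1)) =
        ∑ j ∈ Ico 3 (n - 1), (g j / 1 + d / 2 * 1) := by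
      apply sum_congr rfl
      intro j hj
      have h2 := (mem_Ico.1 hj).1
      rw [if_neg (by omega), if_neg (by omega)]
    rw [h1]
    simp only [if_true]
    rw [if_neg (by norm_num)]
    norm_num at h ⊢
    linarith

/-- The bilinear form of signature `(2,2)`. -/
def B (x y : Fin 4 → ℝ) : ℝ := x 0 * y 1 + x 1 * y 0 + x 2 * y 3 + x 3 * y 2

lemma B_comm (x y : Fin 4 → ℝ) : B x y = B y x := by unfold B; ring

/-- A Gram matrix of vectors of `ℝ⁴` has rank at most `4`. -/
lemma rank_gram {n : ℕ} (v : Fin n → Fin 4 → ℝ) :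
    (Matrix.of (fun i j => B (v i) (v j)) : Matrix (Fin n) (Fin n) ℝ).rank ≤ 4 := by
  have h : (Matrix.of (fun i j => B (v i) (v j)) : Matrix (Fin n) (Fin n) ℝ) =
      (Matrix.of v : Matrix (Fin n) (Fin 4) ℝ) *
        (Matrix.of (fun (k : Fin 4) (j : Fin n) => v j (![1, 0, 3, 2] k)) :
          Matrix (Fin 4) (Fin n) ℝ) := by
    ext i j
    rw [Matrix.mul_apply, Fin.sum_univ_four]
    simp [B]
  rw [h]
  refine (Matrix.rank_mul_le_left _ _).trans ?_
  have := Matrix.rank_le_width (Matrix.of v : Matrix (Fin n) (Fin 4) ℝ)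
  simpa using this

/-- If the first diagonal entry is not `0`, there is a completion of rank at most `4`. -/
lemma exists_completion {n : ℕ} (hn : 4 ≤ n) (M : PartialMatrix (loopedCycle n))
    (h0 : M ⟨s((⟨0, by omega⟩ : Fin n), ⟨0, by omega⟩), Or.inl ⟨_, rfl⟩⟩ ≠ 0) :
    ∃ A, IsCompletion M A ∧ A.rank ≤ 4 := by
  classical
  let f : Sym2 (Fin n) → ℝ := fun x => if h : x ∈ loopedCycle n then M ⟨x, h⟩ else 0
  have hf : ∀ x (h : x ∈ loopedCycle n), M ⟨x, h⟩ = f x := by
    intro x h; simp [f, h]
  have hpos : 0 < n := by omega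
  -- the data as sequences
  let z : ℕ → Fin n := fun i => ⟨i % n, Nat.mod_lt _ hpos⟩
  let d : ℕ → ℝ := fun i => f s(z i, z i)
  let e : ℕ → ℝ := fun i => f s(z i, z (i + 1))
  have hd0 : d 0 ≠ 0 := by
    have : z 0 = ⟨0, hpos⟩ := by simp [z]
    simp only [d, this]
    rw [← hf _ (Or.inl ⟨_, rfl⟩)]
    exact h0
  let g : ℕ → ℝ := fun j => (d j + d (j + 1)) / 2 - e j
  obtain ⟨α, hα, hsum⟩ := exists_steps n hn (d 0) (e (n - 1) - e 0) g hd0
  let a : ℕ → ℝ := fun i => ∑ j ∈ Ico 1 i, α j
  let b : ℕ → ℝ := fun i => e 0 + ∑ j ∈ Ico 1 i, g j / α j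
  let v : ℕ → Fin 4 → ℝ := fun i =>
    if i = 0 then ![1, d 0 / 2, 0, 0] else ![a i, b i, 1, d i / 2 - a i * b i]
  have hdiag : ∀ i, B (v i) (v i) = d i := by
    intro i
    by_cases hi : i = 0
    · subst hi; simp [v, B]
    · simp only [v, hi, if_false, B]
      simp
      ring
  have hstep : ∀ i, i ≠ 0 → B (v i) (v (i + 1)) = e i := by
    intro i hi
    have ha : a (i + 1) = a i + α i := by
      simp only [a]; rw [sum_Ico_succ_top (by omega)]
    have hb : b (i + 1) = b i + g i / α i := by
      simp only [b]; rw [sum_Ico_succ_top (by omega), add_assoc]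
    simp only [v, hi, if_false, B, Nat.succ_ne_zero]
    rw [ha, hb]
    have h1 : α i * (g i / α i) = g i := mul_div_cancel₀ _ (hα i)
    have h2 : g i = (d i + d (i + 1)) / 2 - e i := rfl
    simp
    nlinarith
  have hfirst : B (v 0) (v 1) = e 0 := by
    simp [v, B, a, b]
  have hlast : B (v (n - 1)) (v 0) = e (n - 1) := by
    have hne : n - 1 ≠ 0 := by omega
    have h1 : b (n - 1) + d 0 / 2 * a (n - 1) = e (n - 1) := by
      simp only [a, b]
      rw [mul_sum, add_assoc, ← sum_add_distrib, hsum]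
      ring
    simp only [v, hne, if_false, if_true, B]
    simp
    linarith
  -- the completion
  refine ⟨Matrix.of (fun i j => B (v i) (v j)), ⟨?_, ?_⟩, rank_gram (fun i : Fin n => v i)⟩
  · ext i j
    simp only [Matrix.transpose_apply, Matrix.of_apply]
    exact B_comm _ _
  · have hz : ∀ i : Fin n, z i = i := by
      intro i; ext; simp [z, Nat.mod_eq_of_lt i.isLt]
    have key : ∀ i j : Fin n, (j : ℕ) = ((i : ℕ) + 1) % n → B (v i) (v j) = f s(i, j) := by
      intro i j hij
      have hzj : z ((i : ℕ) + 1) = j := by ext; simp [z, hij]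
      have he : e i = f s(i, j) := by
        simp only [e]; rw [hz, hzj]
      by_cases hi : (i : ℕ) + 1 < n
      · rw [Nat.mod_eq_of_lt hi] at hij
        rw [hij]
        by_cases h0 : (i : ℕ) = 0
        · rw [h0] at he ⊢
          rw [hfirst, he]
        · rw [hstep i h0, he]
      · have h1 : (i : ℕ) + 1 = n := by have := i.isLt; omega
        rw [h1, Nat.mod_self] at hij
        have h2 : (i : ℕ) = n - 1 := by omega
        rw [hij]
        rw [h2] at he ⊢
        rw [hlast, he]
    intro i j h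
    rw [hf _ h]
    simp only [Matrix.of_apply]
    rcases h with ⟨k, hk⟩ | ⟨k, l, hkl, hk⟩
    · rw [Sym2.eq_iff] at hk
      have hij : i = k ∧ j = k := by
        rcases hk with h | h
        · exact h
        · exact ⟨h.1, h.2⟩
      obtain ⟨rfl, rfl⟩ := hij
      rw [hdiag]
      simp only [d]; rw [hz]
    · rw [Sym2.eq_iff] at hk
      rcases hk with ⟨rfl, rfl⟩ | ⟨rfl, rfl⟩
      · exact key i j hkl
      · rw [B_comm, key j i hkl, Sym2.eq_swap]

/-- **Looped cycles have no typical rank `≥ 5`.** In particular, for no `n ≥ 3` the maximum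
typical rank (the greatest typical rank) of the looped cycle on `n` vertices is `5`. -/
theorem result (n : ℕ) (hn : 3 ≤ n) :
    (∀ r, 5 ≤ r → ¬ IsTypicalRank (loopedCycle n) r) ∧
    ¬ IsGreatest {r | IsTypicalRank (loopedCycle n) r} 5 := by
  classical
  have hpos : 0 < n := by omega
  have main : ∀ r, 5 ≤ r → ¬ IsTypicalRank (loopedCycle n) r := by
    intro r hr hT
    let x0 : loopedCycle n := ⟨s((⟨0, hpos⟩ : Fin n), ⟨0, hpos⟩), Or.inl ⟨_, rfl⟩⟩
    have hsub : {M : PartialMatrix (loopedCycle n) | minCompletionRank M = r} ⊆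
        {M | M x0 = 0} := by
      intro M hM
      by_contra hne
      have hM' : minCompletionRank M = r := hM
      have hle : minCompletionRank M ≤ 4 := by
        by_cases h3 : n = 3
        · -- any completion has rank at most `3`
          by_cases hex : ∃ A, IsCompletion M A
          · obtain ⟨A, hA⟩ := hex
            have h1 : minCompletionRank M ≤ A.rank := Nat.sInf_le ⟨A, hA, rfl⟩
            have h2 := A.rank_le_width
            omega
          · have : {r | ∃ A, IsCompletion M A ∧ A.rank = r} = ∅ := by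
              ext r
              simp only [Set.mem_ofPred_eq, Set.mem_empty_iff_false, iff_false]
              rintro ⟨A, hA, -⟩
              exact hex ⟨A, hA⟩
            unfold minCompletionRank
            rw [this]; simp
        · obtain ⟨A, hA, hAr⟩ := exists_completion (by omega : 4 ≤ n) M hne
          have h1 : minCompletionRank M ≤ A.rank := Nat.sInf_le ⟨A, hA, rfl⟩
          omega
      omega
    obtain ⟨M, hM⟩ := hT
    have hopen : IsOpen ((fun M : PartialMatrix (loopedCycle n) => M x0) ''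
        (interior {M : PartialMatrix (loopedCycle n) | minCompletionRank M = r})) :=
      isOpenMap_eval x0 _ isOpen_interior
    have hsub2 : (fun M : PartialMatrix (loopedCycle n) => M x0) ''
        (interior {M : PartialMatrix (loopedCycle n) | minCompletionRank M = r}) ⊆ {0} := by
      rintro y ⟨M', hM', rfl⟩
      exact hsub (interior_subset hM')
    have h1 := interior_maximal hsub2 hopen
    rw [interior_singleton] at h1
    exact h1 ⟨M, hM, rfl⟩
  exact ⟨main, fun h => main 5 (le_refl 5) h.1⟩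

end Pool.Agent.Results.MP_541c26_co.NeverFive
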